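import Mathlib
import Pool.Agent.Helpers.H4_Col

set_option autoImplicit false

namespace Pool.Agent.Results.MP_52e257_al.ColorAlgebra

open Pool.Agent.H4Col

theorem ratFunc_not_finite (F : Type) [Field F] : ¬ Module.Finite F (RatFunc F) := by
  intro h
  have h1 : Module.Finite F (Polynomial F) :=
    Module.Finite.of_injective (IsScalarTower.toAlgHom F (Polynomial F) (RatFunc F)).toLinearMap
      (RatFunc.algebraMap_injective F)
  exact Polynomial.not_finite h1

/-- Over every field `F` of characteristic not two there is a simple infinite-dimensional
noncommutative Jordan algebra with `([x,y],y,y) = 0` that is neither alternative nor Jordan.  The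
example is the seven-dimensional split color algebra over an infinite extension `K` of `F`. -/
theorem result : ∀ (F : Type) [Field F], (2 : F) ≠ 0 →
    ∃ (A : Type) (_ : NonUnitalNonAssocRing A) (_ : Module F A) (_ : IsScalarTower F A A)
      (_ : SMulCommClass F A A), IsNCJordan A ∧ CommutatorIdentity A ∧ IsSimpleAlg F A ∧
        ¬ Module.Finite F A ∧ ¬ IsAlternative A ∧ ¬ IsJordanAlg A := by
  intro F _ h2
  have h2' : (2 : RatFunc F) ≠ 0 := by
    intro h
    apply h2
    have h3 : algebraMap F (RatFunc F) 2 = 0 := by rw [map_ofNat]; exact h
    exact (map_eq_zero _).1 h3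
  exact ⟨Col (RatFunc F), inferInstance, inferInstance, inferInstance, inferInstance, ncj, ci,
    simple h2', not_finite (ratFunc_not_finite F), not_alt h2', not_jordan h2'⟩

end Pool.Agent.Results.MP_52e257_al.ColorAlgebra
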